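import Pool.Agent.Y661.NU.Stm

/-!
Project NU, part PER: at the self-dual point an open circuit surrounded by a closed dual circuit
exists with high probability.
-/

set_option autoImplicit false

namespace Pool.Agent.Y312.NU.PER

open H974 Finset Pool.Agent.Y661.NU

theorem Circ_local {n m : ℕ} {S : Finset Edg} (hS : annE n m ⊆ S)
    (F : Finset Edg) : Circ ((n + 1 : ℕ) : ℤ) m F ↔ Circ ((n + 1 : ℕ) : ℤ) m (F ∩ S) := by
  have h0 : (0:ℤ) ≤ n := by positivity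
  have s1 : LRE (-m) m ((n + 1 : ℕ) : ℤ) m ⊆ annE n m := by
    unfold annE boxE
    rintro ⟨x, y, _ | _⟩ h8 <;> push_cast at h8
    · simp only [mem_LRE_false, Finset.mem_sdiff, mem_RE_false] at h8 ⊢; omega
    · simp only [mem_LRE_true, Finset.mem_sdiff, mem_RE_true] at h8 ⊢; omega
  have s2 : LRE (-m) m (-m) (-((n + 1 : ℕ) : ℤ)) ⊆ annE n m := by
    unfold annE boxE
    rintro ⟨x, y, _ | _⟩ h8 <;> push_cast at h8
    · simp only [mem_LRE_false, Finset.mem_sdiff, mem_RE_false] at h8 ⊢; omega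
    · simp only [mem_LRE_true, Finset.mem_sdiff, mem_RE_true] at h8 ⊢; omega
  have s3 : TBE ((n + 1 : ℕ) : ℤ) m (-m) m ⊆ annE n m := by
    unfold annE boxE
    rintro ⟨x, y, _ | _⟩ h8 <;> push_cast at h8
    · simp only [mem_TBE_false, Finset.mem_sdiff, mem_RE_false] at h8 ⊢; omega
    · simp only [mem_TBE_true, Finset.mem_sdiff, mem_RE_true] at h8 ⊢; omega
  have s4 : TBE (-m) (-((n + 1 : ℕ) : ℤ)) (-m) m ⊆ annE n m := by
    unfold annE boxE
    rintro ⟨x, y, _ | _⟩ h8 <;> push_cast at h8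
    · simp only [mem_TBE_false, Finset.mem_sdiff, mem_RE_false] at h8 ⊢; omega
    · simp only [mem_TBE_true, Finset.mem_sdiff, mem_RE_true] at h8 ⊢; omega
  unfold Circ
  rw [LRc_local (F := F) (s1.trans hS), LRc_local (F := F) (s2.trans hS),
    TBc_local (F := F) (s3.trans hS), TBc_local (F := F) (s4.trans hS)]

theorem pr_C {m : ℕ} (hm : 5 ≤ m) {S : Finset Edg} (hS : boxE (3 * m) ⊆ S) :
    (1/2 : ℝ)^188 ≤ Pr (fun _ => (1/2 : ℝ)) S (Circ ((m + 1 : ℕ) : ℤ) ((3 * m : ℕ) : ℤ)) := by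
  have hm' : (5:ℤ) ≤ m := by exact_mod_cast hm
  have h := pr_Circ (q := 1/2) (by norm_num) (by norm_num) (R1 := ((m + 1 : ℕ) : ℤ))
    (R2 := ((3 * m : ℕ) : ℤ)) (by positivity) (by push_cast; omega) (S := S) hS
  have hr : (1/2 : ℝ)^47 ≤ hh (1/2) (2 * ((3 * m : ℕ) : ℤ)) (((3 * m : ℕ) : ℤ) - ((m + 1 : ℕ) : ℤ)) :=
    rsw (n := m - 1) (by omega) (by push_cast; omega) (by push_cast; omega) (by push_cast; omega)
  calc (1/2 : ℝ)^188 = ((1/2 : ℝ)^47)^4 := by rw [← pow_mul]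
    _ ≤ (hh (1/2) (2 * ((3 * m : ℕ) : ℤ)) (((3 * m : ℕ) : ℤ) - ((m + 1 : ℕ) : ℤ)))^4 :=
        pow_le_pow_left₀ (by positivity) hr 4
    _ ≤ _ := h

/-- circuit and dual circuit at scale `k` -/
def Dk (k : ℕ) (F : Finset Edg) : Prop :=
  Circ ((RR (2 * k) + 1 : ℕ) : ℤ) (RR (2 * k + 1)) F ∧ Blk (RR (2 * k + 1)) (RR (2 * k + 2)) F

theorem RR_lt (k : ℕ) : RR k < RR (k + 1) := by
  rw [RR_succ]; have := RR_ge k; omega

theorem annE_sub {a b c d : ℕ} (h1 : c ≤ a) (h2 : b ≤ d) : annE a b ⊆ annE c d := by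
  unfold annE
  exact Finset.sdiff_subset_sdiff (boxE_mono h2) (boxE_mono h1)

theorem Dk_local (k : ℕ) {S : Finset Edg} (hS : annE (RR (2 * k)) (RR (2 * k + 2)) ⊆ S)
    (F : Finset Edg) : Dk k F ↔ Dk k (F ∩ S) := by
  unfold Dk
  rw [Circ_local ((annE_sub le_rfl (RR_lt _).le).trans hS) F,
    Blk_local (RR_lt (2 * k + 1)) ((annE_sub (RR_lt _).le le_rfl).trans hS) F]

theorem pr_Dk (k : ℕ) {U : Finset Edg} (hU : boxE (RR (2 * k + 2)) ⊆ U) :
    (1/2 : ℝ)^188 * (1/2 : ℝ)^188 ≤ Pr (fun _ => (1/2 : ℝ)) U (Dk k) := by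
  have ok := okq (q := 1/2) (by norm_num) (by norm_num)
  have l1 := RR_lt (2 * k)
  have l2 := RR_lt (2 * k + 1)
  have u1 : boxE (RR (2 * k + 1)) ⊆ U := (boxE_mono l2.le).trans hU
  have u2 : annE (RR (2 * k + 1)) (RR (2 * k + 2)) ⊆ U := Finset.sdiff_subset.trans hU
  have h := Pr_indep (p := fun _ => (1/2:ℝ))
    (A := fun F => Circ ((RR (2 * k) + 1 : ℕ) : ℤ) (RR (2 * k + 1)) F)
    (B := fun F => Blk (RR (2 * k + 1)) (RR (2 * k + 2)) F) u1 u2 Finset.disjoint_sdiff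
    (fun F _ => Circ_local (Finset.sdiff_subset) F)
    (fun F _ => Blk_local l2 (Finset.Subset.refl _) F)
  have h1 : (1/2 : ℝ)^188 ≤ Pr (fun _ => (1/2 : ℝ)) U
      (fun F => Circ ((RR (2 * k) + 1 : ℕ) : ℤ) (RR (2 * k + 1)) F) := by
    rw [RR_succ] at u1 ⊢
    exact pr_C (by have := RR_ge (2 * k); omega) u1
  have h2 : (1/2 : ℝ)^188 ≤ Pr (fun _ => (1/2 : ℝ)) U
      (fun F => Blk (RR (2 * k + 1)) (RR (2 * k + 2)) F) := by
    rw [RR_succ (2 * k + 1)] at u2 ⊢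
    exact pr_Blk (by have := RR_ge (2 * k + 1); omega) u2
  calc (1/2 : ℝ)^188 * (1/2 : ℝ)^188 ≤ _ := mul_le_mul h1 h2 (by positivity)
        (le_trans (by positivity) h1)
    _ = _ := h.symm

theorem pr_none (K : ℕ) {U : Finset Edg} (hU : boxE (RR (2 * K)) ⊆ U) :
    Pr (fun _ => (1/2 : ℝ)) U (fun F => ∀ k < K, ¬ Dk k F) ≤
      (1 - (1/2 : ℝ)^188 * (1/2 : ℝ)^188)^K := by
  have ok := okq (q := 1/2) (by norm_num) (by norm_num)
  have hc : (1/2 : ℝ)^188 * (1/2 : ℝ)^188 ≤ 1 :=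
    mul_le_one₀ (pow_le_one₀ (by norm_num) (by norm_num)) (by positivity)
      (pow_le_one₀ (by norm_num) (by norm_num))
  induction K with
  | zero =>
    simp only [pow_zero]
    exact Pr_le_one ok _ _
  | succ K ih =>
    have e2 : 2 * (K + 1) = 2 * K + 2 := by ring
    rw [e2] at hU
    have hlt : RR (2 * K) < RR (2 * K + 2) := (RR_lt _).trans (RR_lt _)
    have hU' : boxE (RR (2 * K)) ⊆ U := (boxE_mono hlt.le).trans hU
    have i1 := ih hU'
    have hann : annE (RR (2 * K)) (RR (2 * K + 2)) ⊆ U := Finset.sdiff_subset.trans hU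
    have e1 : Pr (fun _ => (1/2 : ℝ)) U (fun F => ∀ k < K + 1, ¬ Dk k F) =
        Pr (fun _ => (1/2 : ℝ)) U (fun F => (∀ k < K, ¬ Dk k F) ∧ ¬ Dk K F) := by
      apply Pr_congr
      intro F _
      constructor
      · intro h
        exact ⟨fun k hk => h k (by omega), h K (by omega)⟩
      · rintro ⟨h, h'⟩ k hk
        rcases Nat.lt_or_ge k K with hlt | hge
        · exact h k hlt
        · have : k = K := by omega
          rw [this]; exact h'
    have i2 := Pr_indep (p := fun _ => (1/2:ℝ)) (A := fun F => ∀ k < K, ¬ Dk k F)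
      (B := fun F => ¬ Dk K F) hU' hann (Finset.disjoint_sdiff)
      (fun F _ => forall_congr' fun k => forall_congr' fun hk => not_congr
        (Dk_local k (Finset.sdiff_subset.trans (boxE_mono (RR_mono (by omega)))) F))
      (fun F _ => not_congr (Dk_local K (Finset.Subset.refl _) F))
    rw [e1, i2, Pr_not, pow_succ]
    have hb := pr_Dk K hU
    apply mul_le_mul i1 (by linarith)
    · have := Pr_le_one ok U (Dk K)
      linarith
    · apply pow_nonneg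
      linarith

theorem main : S_PER := by
  intro ε hε
  have hc0 : (0:ℝ) < (1/2 : ℝ)^188 * (1/2 : ℝ)^188 := by positivity
  have hc : (1/2 : ℝ)^188 * (1/2 : ℝ)^188 ≤ 1 :=
    mul_le_one₀ (pow_le_one₀ (by norm_num) (by norm_num)) (by positivity)
      (pow_le_one₀ (by norm_num) (by norm_num))
  obtain ⟨K, hK⟩ := exists_pow_lt_of_lt_one hε
    (show 1 - (1/2 : ℝ)^188 * (1/2 : ℝ)^188 < 1 by linarith)
  refine ⟨RR (2 * K) + 1, ?_⟩
  have ok := okq (q := 1/2) (by norm_num) (by norm_num)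
  have h1 := pr_none K (U := boxE (RR (2 * K) + 1)) (boxE_mono (by omega))
  have h2 : Pr (fun _ => (1/2 : ℝ)) (boxE (RR (2 * K) + 1)) (fun F => ¬ ∀ k < K, ¬ Dk k F) ≤
      Pr (fun _ => (1/2 : ℝ)) (boxE (RR (2 * K) + 1)) (Ev (RR (2 * K) + 1)) := by
    apply Pr_mono ok
    intro F _ hF
    push Not at hF
    obtain ⟨k, hk, hD⟩ := hF
    have l1 := RR_lt (2 * k)
    have l2 := RR_lt (2 * k + 1)
    have l3 : RR (2 * k + 2) ≤ RR (2 * K) := RR_mono (by omega)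
    have l4 := RR_succ (2 * k)
    have l5 := RR_ge (2 * k)
    exact ⟨RR (2 * k) + 1, RR (2 * k + 1), RR (2 * k + 1), RR (2 * k + 2), by omega, by omega,
      le_rfl, l2, by omega, hD.1, hD.2⟩
  rw [Pr_not] at h2
  linarith

end Pool.Agent.Y312.NU.PER
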